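import Pool.Agent.Lib.MP_dae6d7_al.Final

/-! There is a finitely presented group whose Morse boundary is not sigma-compact. -/

namespace Pool.Agent.Results.MP_dae6d7_al.NonSigmaCompact

/-- There are a finitely presented group G and a finite generating set T of G such that the Morse boundary
of the Cayley graph of G with respect to T (base point: the vertex 1) is not sigma-compact. -/
theorem result : ∃ (G : Type) (_ : Group G) (T : Dae.GenSet G), Group.IsFinitelyPresented G ∧
    ¬ SigmaCompactSpace (Dae.MorseBoundary (Dae.Cay T) (Dae.Cay.vert T 1)) :=
  Dae.final

end Pool.Agent.Results.MP_dae6d7_al.NonSigmaCompact
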